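import Pool.Agent.H82.G4.Targets

/-!
Theorem G (MP_ee74d2_an), group G4, module GE2: the inverted point is near a line.
-/

set_option autoImplicit false

namespace Pool.Agent.H59.G4

open MeasureTheory Set
open Pool.Agent.H83.G
open Pool.Agent.H22.G4 (nv Ind)
open Pool.Agent.H82.G4
open scoped ENNReal NNReal RealInnerProductSpace

theorem pf_GE2 : T_GE2 := by
  intro m B r C₀ hB hr hC₀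
  refine ⟨1 + C₀ * (2 * B) ^ 2 / r ^ 2 + C₀ * (1 + B) ^ 2 * (r⁻¹ ^ 3 + r⁻¹ ^ 2), ?_, ?_⟩
  · have e1 : 0 ≤ C₀ * (2 * B) ^ 2 / r ^ 2 := by positivity
    have e2 : 0 ≤ C₀ * (1 + B) ^ 2 * (r⁻¹ ^ 3 + r⁻¹ ^ 2) := by positivity
    linarith
  intro ρ η₀ η₁ η₂ η a₀ a₁ a₂ hρ h0 h1 h2 h3 hr1 hr2 hr3 ha0 ha1 ha2 hV
  set ξ := η - η₀ with hξ
  set ξ₁ := η₁ - η₀ with hξ₁
  set ξ₂ := η₂ - η₀ with hξ₂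
  -- components
  have v0 : |1 - (a₀ + a₁ + a₂)| ≤ C₀ * ρ := by
    refine le_trans (le_of_eq ?_) ((norm_fst_le _).trans hV)
    simp [nv, Real.norm_eq_abs]
  have v1 : ‖η - (a₀ • η₀ + a₁ • η₁ + a₂ • η₂)‖ ≤ C₀ * ρ :=
    le_trans (le_of_eq (by simp [nv])) ((norm_fst_le _).trans ((norm_snd_le _).trans hV))
  have v2 : |‖η‖ ^ 2 - (a₀ * ‖η₀‖ ^ 2 + a₁ * ‖η₁‖ ^ 2 + a₂ * ‖η₂‖ ^ 2)| ≤ C₀ * ρ := by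
    refine le_trans (le_of_eq ?_) ((norm_snd_le _).trans ((norm_snd_le _).trans hV))
    simp [nv, Real.norm_eq_abs]
  set w0 := 1 - (a₀ + a₁ + a₂) with hw0
  set w1 := η - (a₀ • η₀ + a₁ • η₁ + a₂ • η₂) with hw1
  set w2 := ‖η‖ ^ 2 - (a₀ * ‖η₀‖ ^ 2 + a₁ * ‖η₁‖ ^ 2 + a₂ * ‖η₂‖ ^ 2) with hw2
  have hB0 : 0 ≤ B := by linarith
  have hCρ : 0 ≤ C₀ * ρ := by positivity
  -- the errors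
  have e1 : ξ - (a₁ • ξ₁ + a₂ • ξ₂) = w1 - w0 • η₀ := by
    rw [hw1, hw0, hξ, hξ₁, hξ₂]
    module
  have e2 : ‖ξ‖ ^ 2 - (a₁ * ‖ξ₁‖ ^ 2 + a₂ * ‖ξ₂‖ ^ 2) =
      w2 - 2 * ⟪w1, η₀⟫ + w0 * ‖η₀‖ ^ 2 := by
    have n1 : ‖ξ‖ ^ 2 = ‖η‖ ^ 2 - 2 * ⟪η, η₀⟫ + ‖η₀‖ ^ 2 := norm_sub_sq_real η η₀
    have n2 : ‖ξ₁‖ ^ 2 = ‖η₁‖ ^ 2 - 2 * ⟪η₁, η₀⟫ + ‖η₀‖ ^ 2 := norm_sub_sq_real η₁ η₀
    have n3 : ‖ξ₂‖ ^ 2 = ‖η₂‖ ^ 2 - 2 * ⟪η₂, η₀⟫ + ‖η₀‖ ^ 2 := norm_sub_sq_real η₂ η₀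
    have n4 : ⟪w1, η₀⟫ = ⟪η, η₀⟫ - (a₀ * ‖η₀‖ ^ 2 + a₁ * ⟪η₁, η₀⟫ + a₂ * ⟪η₂, η₀⟫) := by
      rw [hw1, inner_sub_left, inner_add_left, inner_add_left, real_inner_smul_left,
        real_inner_smul_left, real_inner_smul_left, real_inner_self_eq_norm_sq]
    rw [n1, n2, n3, n4, hw2, hw0]
    ring
  have b1 : ‖w1 - w0 • η₀‖ ≤ C₀ * ρ * (1 + B) ^ 2 := by
    refine (norm_sub_le _ _).trans ?_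
    rw [norm_smul, Real.norm_eq_abs]
    have := mul_le_mul v0 h0 (norm_nonneg _) hCρ
    nlinarith [mul_nonneg hCρ hB0, mul_nonneg hCρ (mul_nonneg hB0 hB0)]
  have b2 : |w2 - 2 * ⟪w1, η₀⟫ + w0 * ‖η₀‖ ^ 2| ≤ C₀ * ρ * (1 + B) ^ 2 := by
    have i1 : |⟪w1, η₀⟫| ≤ C₀ * ρ * B :=
      (abs_real_inner_le_norm _ _).trans (mul_le_mul v1 h0 (norm_nonneg _) hCρ)
    have i2 : |w0 * ‖η₀‖ ^ 2| ≤ C₀ * ρ * B ^ 2 := by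
      rw [abs_mul, abs_of_nonneg (by positivity : 0 ≤ ‖η₀‖ ^ 2)]
      exact mul_le_mul v0 (pow_le_pow_left₀ (norm_nonneg _) h0 2) (by positivity) hCρ
    have i3 := abs_add_le (w2 - 2 * ⟪w1, η₀⟫) (w0 * ‖η₀‖ ^ 2)
    have i4 := abs_sub w2 (2 * ⟪w1, η₀⟫)
    rw [abs_mul, abs_of_pos (by norm_num : (0 : ℝ) < 2)] at i4
    calc |w2 - 2 * ⟪w1, η₀⟫ + w0 * ‖η₀‖ ^ 2| ≤ C₀ * ρ + 2 * (C₀ * ρ * B) + C₀ * ρ * B ^ 2 := by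
          linarith
      _ = _ := by ring
  have hξ0 : 0 < ‖ξ‖ := hr.trans_le hr3
  have hξ10 : 0 < ‖ξ₁‖ := hr.trans_le hr1
  have hξ20 : 0 < ‖ξ₂‖ := hr.trans_le hr2
  set e' := w1 - w0 • η₀ with he'
  set e'' := w2 - 2 * ⟪w1, η₀⟫ + w0 * ‖η₀‖ ^ 2 with he''
  refine ⟨a₂ * ‖ξ₂‖ ^ 2 / ‖ξ‖ ^ 2, ?_, ?_⟩
  · have hx2 : ‖ξ₂‖ ≤ 2 * B := (norm_sub_le _ _).trans (by linarith)
    have t1 : |a₂ * ‖ξ₂‖ ^ 2 / ‖ξ‖ ^ 2| ≤ C₀ * (2 * B) ^ 2 / r ^ 2 := by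
      rw [abs_div, abs_mul, abs_of_nonneg (by positivity : 0 ≤ ‖ξ₂‖ ^ 2),
        abs_of_nonneg (by positivity : 0 ≤ ‖ξ‖ ^ 2)]
      exact div_le_div₀ (by positivity) (mul_le_mul ha2
        (pow_le_pow_left₀ (norm_nonneg _) hx2 2) (by positivity) hC₀) (by positivity)
        (pow_le_pow_left₀ hr.le hr3 2)
    have t2 : 0 ≤ C₀ * (1 + B) ^ 2 * (r⁻¹ ^ 3 + r⁻¹ ^ 2) := by positivity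
    linarith
  · have key : (‖ξ‖ ^ 2)⁻¹ • ξ - ((‖ξ₁‖ ^ 2)⁻¹ • ξ₁ + (a₂ * ‖ξ₂‖ ^ 2 / ‖ξ‖ ^ 2) •
        ((‖ξ₂‖ ^ 2)⁻¹ • ξ₂ - (‖ξ₁‖ ^ 2)⁻¹ • ξ₁)) =
        (‖ξ‖ ^ 2)⁻¹ • e' - (e'' / ‖ξ‖ ^ 2) • ((‖ξ₁‖ ^ 2)⁻¹ • ξ₁) := by
      rw [← e1, ← e2]
      match_scalars <;> field_simp <;> ring
    rw [key]
    have hp1 : ‖(‖ξ₁‖ ^ 2)⁻¹ • ξ₁‖ ≤ r⁻¹ := by
      rw [norm_smul, norm_inv, norm_pow, norm_norm]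
      have : (‖ξ₁‖ ^ 2)⁻¹ * ‖ξ₁‖ = ‖ξ₁‖⁻¹ := by field_simp
      rw [this]
      exact inv_anti₀ hr hr1
    have hq : (‖ξ‖ ^ 2)⁻¹ ≤ r⁻¹ ^ 2 := by
      rw [inv_pow]
      exact inv_anti₀ (by positivity) (pow_le_pow_left₀ hr.le hr3 2)
    have s1 : ‖(‖ξ‖ ^ 2)⁻¹ • e'‖ ≤ r⁻¹ ^ 2 * (C₀ * ρ * (1 + B) ^ 2) := by
      rw [norm_smul, norm_inv, norm_pow, norm_norm]
      exact mul_le_mul hq b1 (norm_nonneg _) (by positivity)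
    have s2 : ‖(e'' / ‖ξ‖ ^ 2) • ((‖ξ₁‖ ^ 2)⁻¹ • ξ₁)‖ ≤
        C₀ * ρ * (1 + B) ^ 2 * r⁻¹ ^ 2 * r⁻¹ := by
      rw [norm_smul, Real.norm_eq_abs, abs_div, abs_of_nonneg (by positivity : 0 ≤ ‖ξ‖ ^ 2),
        div_eq_mul_inv]
      exact mul_le_mul (mul_le_mul b2 hq (by positivity) (by positivity)) hp1 (norm_nonneg _)
        (by positivity)
    refine (norm_sub_le _ _).trans ((add_le_add s1 s2).trans ?_)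
    have t1 : 0 ≤ (1 + C₀ * (2 * B) ^ 2 / r ^ 2) * ρ := by positivity
    have t3 : r⁻¹ ^ 2 * (C₀ * ρ * (1 + B) ^ 2) + C₀ * ρ * (1 + B) ^ 2 * r⁻¹ ^ 2 * r⁻¹ =
      C₀ * (1 + B) ^ 2 * (r⁻¹ ^ 3 + r⁻¹ ^ 2) * ρ := by ring
    rw [t3]
    linarith

end Pool.Agent.H59.G4
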