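import Pool.Agent.H82.G4.Targets
import Pool.Agent.H61.G.Basic

/-!
Theorem G (MP_ee74d2_an), group G4, module PTB: there are few significant caps.
-/

set_option autoImplicit false

namespace Pool.Agent.H59.G4

open MeasureTheory Set
open Pool.Agent.H83.G
open Pool.Agent.H82.G4
open scoped ENNReal NNReal RealInnerProductSpace

namespace PTB

variable {m : ℕ}

theorem rg_bounds {κ R : ℝ} (h0 : 0 ≤ κ) (h : κ ≤ 3 / 8) (hR : 1 ≤ R) {ζ : Z m}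
    (hζ : ζ ∈ Rg m κ R⁻¹) : 1 / 4 ≤ ζ.1 ∧ ‖ζ.1⁻¹ • ζ.2.1‖ ≤ 3 / 2 ∧ ‖ζ‖ ≤ 10 := by
  obtain ⟨h1, h2, h3, h4⟩ := hζ
  have hR1 : R⁻¹ ≤ 1 := inv_le_one_of_one_le₀ hR
  have hR0 : 0 ≤ R⁻¹ := by positivity
  have a1 : 5 / 8 ≤ ζ.1 := by linarith
  have a0 : 0 < ζ.1 := by linarith
  have a2 : ζ.1 ≤ 35 / 8 := by linarith
  have h3' : ‖ζ.2.1‖ ≤ 11 / 8 * ζ.1 := h3.trans (mul_le_mul_of_nonneg_right (by linarith) a0.le)
  have h4' : |ζ.2.2 - ‖ζ.2.1‖ ^ 2 / ζ.1| ≤ 11 / 8 :=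
    h4.trans ((mul_le_mul (by linarith : 1 + κ ≤ 11 / 8) hR1 hR0 (by norm_num)).trans (by norm_num))
  have h5 : ‖ζ.2.1‖ ^ 2 / ζ.1 ≤ 121 / 64 * (35 / 8) := by
    rw [div_le_iff₀ a0]
    have e1 : ‖ζ.2.1‖ ^ 2 ≤ (11 / 8 * ζ.1) ^ 2 := pow_le_pow_left₀ (norm_nonneg _) h3' 2
    nlinarith
  have h50 : 0 ≤ ‖ζ.2.1‖ ^ 2 / ζ.1 := by positivity
  refine ⟨by linarith, ?_, ?_⟩
  · rw [norm_smul, norm_inv, Real.norm_eq_abs, abs_of_pos a0, inv_mul_le_iff₀ a0]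
    linarith
  · rw [Prod.norm_def, Prod.norm_def]
    refine max_le ?_ (max_le ?_ ?_)
    · rw [Real.norm_eq_abs, abs_of_pos a0]; linarith
    · linarith
    · rw [Real.norm_eq_abs]
      have e2 := abs_le.1 h4'
      rw [abs_le]
      constructor <;> linarith

/-- part of `G` in the caps of `S` -/
noncomputable def GS (β : E m → ℂ) (K : ℝ) (G : Z m → ℂ) (S : Finset (Fin m → ℤ)) (ζ : Z m) : ℂ :=
  ∑ k ∈ S, cp β (ctr K⁻¹ k) K⁻¹ ζ * G ζ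

theorem tc_k (hCPS : T_CPS) {β : E m → ℂ} (hβ : IsPU β) {K : ℝ} (hK : 1 ≤ K) {G : Z m → ℂ}
    (hG : TC G) (hs : ∀ ζ, G ζ ≠ 0 → 1 / 4 ≤ ζ.1) (k : Fin m → ℤ) :
    TC (fun ζ => cp β (ctr K⁻¹ k) K⁻¹ ζ * G ζ) :=
  hCPS m β (ctr K⁻¹ k) K⁻¹ G hβ.1 (by positivity) hG hs

theorem TF_GS (hCPS : T_CPS) {β : E m → ℂ} (hβ : IsPU β) {K : ℝ} (hK : 1 ≤ K) {G : Z m → ℂ}
    (hG : TC G) (hs : ∀ ζ, G ζ ≠ 0 → 1 / 4 ≤ ζ.1) (S : Finset (Fin m → ℤ)) :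
    TC (GS β K G S) ∧ ∀ z, TF (GS β K G S) z = ∑ k ∈ S, uk β K G k z :=
  ⟨H61.G.tc_sum fun k _ => tc_k hCPS hβ hK hG hs k,
    fun z => H61.G.TF_sum (fun k _ => tc_k hCPS hβ hK hG hs k) z⟩

theorem TF_all (hPUS : T_PUS) (hCPS : T_CPS) {β : E m → ℂ} (hβ : IsPU β) {K : ℝ} (hK : 1 ≤ K)
    {G : Z m → ℂ} (hG : TC G) (hs : ∀ ζ, G ζ ≠ 0 → 1 / 4 ≤ ζ.1)
    (hs2 : ∀ ζ, G ζ ≠ 0 → ‖ζ.1⁻¹ • ζ.2.1‖ ≤ 3 / 2) (z : Z m) :
    TF G z = ∑ k ∈ Ks m K⁻¹, uk β K G k z := by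
  rw [← (TF_GS hCPS hβ hK hG hs (Ks m K⁻¹)).2 z]
  congr 1
  funext ζ
  unfold GS
  by_cases h : G ζ = 0
  · simp [h]
  · rw [← Finset.sum_mul, ((hPUS m).1 β K⁻¹ hβ (by positivity)).2
      (inv_le_one_of_one_le₀ hK) ζ (hs2 ζ h), one_mul]

theorem wt_neg (N : ℕ) (x : Z m) : wt N (-x) = wt N x := by
  unfold wt
  rw [norm_neg]

theorem inv2 {K : ℝ} (hK : 1 ≤ K) : K⁻¹ ^ 2 ≤ 1 ∧ 0 < K⁻¹ ^ 2 :=
  ⟨pow_le_one₀ (by positivity) (inv_le_one_of_one_le₀ hK), by positivity⟩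

/-- slow variation of the weight -/
theorem omega_le (hWT1 : T_WT1) (N : ℕ) {K : ℝ} (hK : 1 ≤ K) (j : Zi m) (z z' : Z m) :
    ENNReal.ofReal (wt N (K⁻¹ ^ 2 • z - zc j)) ≤
      ENNReal.ofReal (1 * (1 + ‖z - z'‖) ^ N) * ENNReal.ofReal (wt N (K⁻¹ ^ 2 • z' - zc j)) := by
  rw [← ENNReal.ofReal_mul (by positivity)]
  refine ENNReal.ofReal_le_ofReal ?_
  have h1 := (hWT1 m N).2.2.1 (K⁻¹ ^ 2 • z - zc j) (K⁻¹ ^ 2 • (z' - z))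
  have h2 : K⁻¹ ^ 2 • z - zc j + K⁻¹ ^ 2 • (z' - z) = K⁻¹ ^ 2 • z' - zc j := by
    rw [smul_sub]; abel
  rw [h2] at h1
  have h3 : ((1 + ‖z - z'‖) ^ N)⁻¹ ≤ wt N (K⁻¹ ^ 2 • (z' - z)) := by
    refine H61.G.wt_ge N _ ?_
    rw [norm_smul, Real.norm_eq_abs, abs_of_pos (inv2 hK).2, norm_sub_rev]
    exact mul_le_of_le_one_left (norm_nonneg _) (inv2 hK).1
  have h4 := H61.G.wt_pos N (K⁻¹ ^ 2 • z - zc j)
  have h5 : 0 < (1 + ‖z - z'‖) ^ N := by positivity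
  have h6 : wt N (K⁻¹ ^ 2 • z - zc j) * ((1 + ‖z - z'‖) ^ N)⁻¹ ≤ wt N (K⁻¹ ^ 2 • z' - zc j) :=
    (mul_le_mul_of_nonneg_left h3 h4.le).trans h1
  rw [one_mul]
  rwa [← div_eq_mul_inv, div_le_iff₀ h5, mul_comm] at h6

/-- the cell of a point -/
theorem cell (hCBN : T_CBN) {K : ℝ} (hK : 1 ≤ K) (z : Z m) :
    ‖K⁻¹ ^ 2 • z - zc (cb (K ^ 2) z)‖ ≤ (m : ℝ) + 1 := by
  have h1 := (hCBN m).1 (K ^ 2) z (by positivity)
  have h2 : K⁻¹ ^ 2 • z - zc (cb (K ^ 2) z) = K⁻¹ ^ 2 • (z - K ^ 2 • zc (cb (K ^ 2) z)) := by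
    rw [smul_sub, smul_smul, ← mul_pow, inv_mul_cancel₀ (by positivity), one_pow, one_smul]
  rw [h2, norm_smul, Real.norm_eq_abs, abs_of_pos (inv2 hK).2]
  calc K⁻¹ ^ 2 * ‖z - K ^ 2 • zc (cb (K ^ 2) z)‖ ≤ K⁻¹ ^ 2 * (((m : ℝ) + 1) * K ^ 2) :=
        mul_le_mul_of_nonneg_left h1 (inv2 hK).2.le
    _ = (m : ℝ) + 1 := by field_simp

theorem meas_omega (N : ℕ) (K : ℝ) (j : Zi m) (hWT1 : T_WT1) :
    Measurable fun z : Z m => ENNReal.ofReal (wt N (K⁻¹ ^ 2 • z - zc j)) := by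
  have h1 : Continuous (wt N : Z m → ℝ) := (hWT1 m N).2.1
  have h2 : Continuous fun z : Z m => wt N (K⁻¹ ^ 2 • z - zc j) := h1.comp (by fun_prop)
  exact h2.measurable.ennreal_ofReal

/-- the weight is large on the cell -/
theorem omega_cell (N : ℕ) {K : ℝ} {j : Zi m} {z : Z m}
    (hz : ‖K⁻¹ ^ 2 • z - zc j‖ ≤ (m : ℝ) + 1) :
    1 ≤ ENNReal.ofReal (((m : ℝ) + 2) ^ N) * ENNReal.ofReal (wt N (K⁻¹ ^ 2 • z - zc j)) := by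
  rw [← ENNReal.ofReal_mul (by positivity), ← ENNReal.ofReal_one]
  refine ENNReal.ofReal_le_ofReal ?_
  have h1 := H61.G.wt_ge N _ hz
  have h2 : (1 + ((m : ℝ) + 1)) ^ N = ((m : ℝ) + 2) ^ N := by ring
  rw [h2] at h1
  have h3 : 0 < ((m : ℝ) + 2) ^ N := by positivity
  calc (1 : ℝ) = ((m : ℝ) + 2) ^ N * (((m : ℝ) + 2) ^ N)⁻¹ := (mul_inv_cancel₀ h3.ne').symm
    _ ≤ _ := mul_le_mul_of_nonneg_left h1 h3.le

/-- one cell -/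
theorem cellA {N : ℕ} {P : ℝ} (C₇ : ℝ≥0)
    (hSPW : ∀ (G : Z m → ℂ) (X : Finset (Z m)) (ω : Z m → ℝ≥0∞), TC G →
      (∀ ζ, G ζ ≠ 0 → ‖ζ‖ ≤ 10) → Sep X → Measurable ω →
      (∀ z z', ω z ≤ ENNReal.ofReal (1 * (1 + ‖z - z'‖) ^ N) * ω z') →
      ∑ z ∈ X, ‖TF G z‖ₑ ^ P * ω z ≤ C₇ * ∫⁻ z, ‖TF G z‖ₑ ^ P * ω z)
    (hWT1 : T_WT1) (hCPS : T_CPS) (hCBN : T_CBN) {β : E m → ℂ} (hβ : IsPU β) {K : ℝ}
    (hK : 1 ≤ K) {G : Z m → ℂ} (hG : TC G) (hs : ∀ ζ, G ζ ≠ 0 → 1 / 4 ≤ ζ.1)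
    (hs3 : ∀ ζ, G ζ ≠ 0 → ‖ζ‖ ≤ 10) (S : Finset (Fin m → ℤ)) (j : Zi m) (Y : Finset (Z m))
    (hY : Sep Y) (hYj : ∀ z ∈ Y, cb (K ^ 2) z = j) :
    ∑ z ∈ Y, ‖∑ k ∈ S, uk β K G k z‖ₑ ^ P ≤ ENNReal.ofReal (((m : ℝ) + 2) ^ N) *
      (C₇ * ∫⁻ z, ‖∑ k ∈ S, uk β K G k z‖ₑ ^ P *
        ENNReal.ofReal (wt N (K⁻¹ ^ 2 • z - zc j))) := by
  obtain ⟨h1, h2⟩ := TF_GS hCPS hβ hK hG hs S
  have hs4 : ∀ ζ, GS β K G S ζ ≠ 0 → ‖ζ‖ ≤ 10 := by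
    intro ζ h
    refine hs3 ζ fun h0 => h ?_
    unfold GS
    simp [h0]
  have h3 := hSPW (GS β K G S) Y (fun z => ENNReal.ofReal (wt N (K⁻¹ ^ 2 • z - zc j))) h1 hs4 hY
    (meas_omega N K j hWT1) (omega_le hWT1 N hK j)
  simp only [h2] at h3
  calc ∑ z ∈ Y, ‖∑ k ∈ S, uk β K G k z‖ₑ ^ P
      ≤ ∑ z ∈ Y, ENNReal.ofReal (((m : ℝ) + 2) ^ N) * (‖∑ k ∈ S, uk β K G k z‖ₑ ^ P *
        ENNReal.ofReal (wt N (K⁻¹ ^ 2 • z - zc j))) := by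
        refine Finset.sum_le_sum fun z hz => ?_
        have h4 := cell hCBN hK z
        rw [hYj z hz] at h4
        have h5 := omega_cell N h4
        calc ‖∑ k ∈ S, uk β K G k z‖ₑ ^ P = 1 * ‖∑ k ∈ S, uk β K G k z‖ₑ ^ P := (one_mul _).symm
          _ ≤ (ENNReal.ofReal (((m : ℝ) + 2) ^ N) *
            ENNReal.ofReal (wt N (K⁻¹ ^ 2 • z - zc j))) * ‖∑ k ∈ S, uk β K G k z‖ₑ ^ P :=
            mul_le_mul_left h5 _
          _ = _ := by ring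
    _ = ENNReal.ofReal (((m : ℝ) + 2) ^ N) * ∑ z ∈ Y, (‖∑ k ∈ S, uk β K G k z‖ₑ ^ P *
        ENNReal.ofReal (wt N (K⁻¹ ^ 2 • z - zc j))) := by rw [Finset.mul_sum]
    _ ≤ _ := mul_le_mul_right h3 _

/-- sum over the cells -/
theorem sumcells {N : ℕ} (C₄ : ℝ≥0)
    (hW : ∀ (c : ℝ) (x : Z m), 0 < c → c ≤ 1 →
      ∑' l : Zi m, ENNReal.ofReal (wt N (c • zc l - x)) ≤ C₄ * ENNReal.ofReal ((c⁻¹) ^ (m + 2)))
    (hWT1 : T_WT1) (K : ℝ) (f : Z m → ℝ≥0∞) (hf : Measurable f) (J : Finset (Zi m)) :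
    ∑ j ∈ J, ∫⁻ z, f z * ENNReal.ofReal (wt N (K⁻¹ ^ 2 • z - zc j)) ≤ C₄ * ∫⁻ z, f z := by
  have hm : ∀ j ∈ J, Measurable fun z : Z m =>
      f z * ENNReal.ofReal (wt N (K⁻¹ ^ 2 • z - zc j)) :=
    fun j _ => hf.mul (meas_omega N K j hWT1)
  rw [← lintegral_finsetSum J hm, ← lintegral_const_mul _ hf]
  refine lintegral_mono fun z => ?_
  simp only
  rw [← Finset.mul_sum, mul_comm (C₄ : ℝ≥0∞)]
  refine mul_le_mul_right ?_ _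
  have h1 := hW 1 (K⁻¹ ^ 2 • z) one_pos le_rfl
  rw [inv_one, one_pow, ENNReal.ofReal_one, mul_one] at h1
  refine le_trans ?_ h1
  refine le_trans (Finset.sum_le_sum fun j _ => ?_) (ENNReal.sum_le_tsum J)
  refine ENNReal.ofReal_le_ofReal (le_of_eq ?_)
  rw [one_smul, ← wt_neg]
  congr 1
  abel

/-- the caps which are not significant -/
theorem nonsig {N : ℕ} {β : E m → ℂ} {K : ℝ} (hK : 1 ≤ K) {G : Z m → ℂ} {C₀ : ℝ}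
    (hC₀ : 0 < C₀) (hcard : ((Ks m K⁻¹).card : ℝ) ≤ C₀ * (K⁻¹⁻¹) ^ m) {j : Zi m} {z : Z m}
    (hz : ‖K⁻¹ ^ 2 • z - zc j‖ ≤ (m : ℝ) + 1) :
    ‖∑ k ∈ Ks m K⁻¹ \ Sg β N K G j, uk β K G k z‖ₑ ≤
      ENNReal.ofReal (C₀ * ((m : ℝ) + 2) ^ N * (K ^ (3 * m + 8))⁻¹) * Mj K (TF G) j := by
  classical
  have hK0 : 0 < K := by linarith
  have h1 : ∀ k ∈ Ks m K⁻¹ \ Sg β N K G j, ‖uk β K G k z‖ₑ ≤
      ENNReal.ofReal (((m : ℝ) + 2) ^ N) *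
        (ENNReal.ofReal ((K ^ (4 * m + 8))⁻¹) * Mj K (TF G) j) := by
    intro k hk
    rw [Finset.mem_sdiff] at hk
    have h2 : aw N K 0 (uk β K G k) j <
        ENNReal.ofReal ((K ^ (4 * m + 8))⁻¹) * Mj K (TF G) j := by
      by_contra h
      exact hk.2 (Finset.mem_filter.2 ⟨hk.1, not_lt.1 h⟩)
    have h3 : ‖uk β K G k z‖ₑ * ENNReal.ofReal (wt N (K⁻¹ ^ 2 • z - zc j)) ≤
        aw N K 0 (uk β K G k) j := by
      unfold aw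
      exact le_iSup₂ (f := fun (z : Z m) (_ : (0 : ℝ) ≤ ‖K⁻¹ ^ 2 • z - zc j‖) =>
        ‖uk β K G k z‖ₑ * ENNReal.ofReal (wt N (K⁻¹ ^ 2 • z - zc j))) z (norm_nonneg _)
    calc ‖uk β K G k z‖ₑ = 1 * ‖uk β K G k z‖ₑ := (one_mul _).symm
      _ ≤ (ENNReal.ofReal (((m : ℝ) + 2) ^ N) *
        ENNReal.ofReal (wt N (K⁻¹ ^ 2 • z - zc j))) * ‖uk β K G k z‖ₑ :=
        mul_le_mul_left (omega_cell N hz) _
      _ = ENNReal.ofReal (((m : ℝ) + 2) ^ N) * (‖uk β K G k z‖ₑ *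
        ENNReal.ofReal (wt N (K⁻¹ ^ 2 • z - zc j))) := by ring
      _ ≤ _ := mul_le_mul_right (h3.trans h2.le) _
  have h4 : ((Ks m K⁻¹ \ Sg β N K G j).card : ℝ≥0∞) ≤ ENNReal.ofReal (C₀ * K ^ m) := by
    have e1 : ((Ks m K⁻¹ \ Sg β N K G j).card : ℝ) ≤ C₀ * K ^ m := by
      rw [inv_inv] at hcard
      refine le_trans ?_ hcard
      exact_mod_cast Finset.card_le_card Finset.sdiff_subset
    rw [← ENNReal.ofReal_natCast]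
    exact ENNReal.ofReal_le_ofReal e1
  calc ‖∑ k ∈ Ks m K⁻¹ \ Sg β N K G j, uk β K G k z‖ₑ
      ≤ ∑ k ∈ Ks m K⁻¹ \ Sg β N K G j, ‖uk β K G k z‖ₑ := enorm_sum_le _ _
    _ ≤ ∑ k ∈ Ks m K⁻¹ \ Sg β N K G j, ENNReal.ofReal (((m : ℝ) + 2) ^ N) *
        (ENNReal.ofReal ((K ^ (4 * m + 8))⁻¹) * Mj K (TF G) j) := Finset.sum_le_sum h1
    _ = ((Ks m K⁻¹ \ Sg β N K G j).card : ℝ≥0∞) * (ENNReal.ofReal (((m : ℝ) + 2) ^ N) *
        (ENNReal.ofReal ((K ^ (4 * m + 8))⁻¹) * Mj K (TF G) j)) := by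
        rw [Finset.sum_const, nsmul_eq_mul]
    _ ≤ ENNReal.ofReal (C₀ * K ^ m) * (ENNReal.ofReal (((m : ℝ) + 2) ^ N) *
        (ENNReal.ofReal ((K ^ (4 * m + 8))⁻¹) * Mj K (TF G) j)) := mul_le_mul_left h4 _
    _ = _ := by
        rw [← mul_assoc, ← mul_assoc, ← ENNReal.ofReal_mul (by positivity),
          ← ENNReal.ofReal_mul (by positivity)]
        congr 2
        have e2 : K ^ (4 * m + 8) = K ^ m * K ^ (3 * m + 8) := by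
          rw [← pow_add]; congr 1; ring
        rw [e2, mul_inv]
        field_simp

/-- number of points of a separated set in a cell -/
theorem card_cell (C₃ : ℝ≥0)
    (hW : ∀ (X : Finset (Z m)) (y : Z m), Sep X →
      ∑ z ∈ X, ENNReal.ofReal (wt (m + 3) (z - y)) ≤ C₃)
    (hCBN : T_CBN) {K : ℝ} (hK : 1 ≤ K) (j : Zi m) (Y : Finset (Z m)) (hY : Sep Y)
    (hYj : ∀ z ∈ Y, cb (K ^ 2) z = j) :
    (Y.card : ℝ≥0∞) ≤ ENNReal.ofReal (((m : ℝ) + 2) ^ (m + 3) * K ^ (2 * m + 6)) * C₃ := by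
  have h0 : 0 < (((m : ℝ) + 2) * K ^ 2) ^ (m + 3) := by positivity
  have h1 : ∀ z ∈ Y, ENNReal.ofReal (((((m : ℝ) + 2) * K ^ 2) ^ (m + 3))⁻¹) ≤
      ENNReal.ofReal (wt (m + 3) (z - K ^ 2 • zc j)) := by
    intro z hz
    refine ENNReal.ofReal_le_ofReal ?_
    have h2 := (hCBN m).1 (K ^ 2) z (by positivity)
    rw [hYj z hz] at h2
    refine le_trans ?_ (H61.G.wt_ge (m + 3) _ h2)
    refine inv_anti₀ (by positivity) (pow_le_pow_left₀ (by positivity) ?_ _)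
    have : 1 ≤ K ^ 2 := one_le_pow₀ hK
    nlinarith
  have h3 : (Y.card : ℝ≥0∞) * ENNReal.ofReal (((((m : ℝ) + 2) * K ^ 2) ^ (m + 3))⁻¹) ≤ C₃ := by
    rw [← nsmul_eq_mul, ← Finset.sum_const]
    exact (Finset.sum_le_sum h1).trans (hW Y _ hY)
  have h4 : ENNReal.ofReal (((m : ℝ) + 2) ^ (m + 3) * K ^ (2 * m + 6)) *
      ENNReal.ofReal (((((m : ℝ) + 2) * K ^ 2) ^ (m + 3))⁻¹) = 1 := by
    rw [← ENNReal.ofReal_mul (by positivity), ← ENNReal.ofReal_one]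
    congr 1
    have e1 : ((m : ℝ) + 2) ^ (m + 3) * K ^ (2 * m + 6) = (((m : ℝ) + 2) * K ^ 2) ^ (m + 3) := by
      rw [mul_pow, ← pow_mul]
      congr 2
    rw [e1]
    exact mul_inv_cancel₀ h0.ne'
  calc (Y.card : ℝ≥0∞) = ENNReal.ofReal (((m : ℝ) + 2) ^ (m + 3) * K ^ (2 * m + 6)) *
      ((Y.card : ℝ≥0∞) * ENNReal.ofReal (((((m : ℝ) + 2) * K ^ 2) ^ (m + 3))⁻¹)) := by
        rw [mul_left_comm, h4, mul_one]
    _ ≤ _ := mul_le_mul_right h3 _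

/-- grouping by cells -/
theorem group (K : ℝ) (X : Finset (Z m)) (F : Zi m → Z m → ℝ≥0∞) (a : Zi m → ℝ≥0∞)
    (h : ∀ j ∈ X.image (cb (K ^ 2)), ∀ Y ⊆ X, (∀ z ∈ Y, cb (K ^ 2) z = j) →
      ∑ z ∈ Y, F j z ≤ a j) :
    ∑ z ∈ X, F (cb (K ^ 2) z) z ≤ ∑ j ∈ X.image (cb (K ^ 2)), a j := by
  classical
  rw [← Finset.sum_fiberwise_of_maps_to (t := X.image (cb (K ^ 2))) (g := cb (K ^ 2))
    fun z hz => Finset.mem_image_of_mem _ hz]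
  refine Finset.sum_le_sum fun j hj => ?_
  have h1 := h j hj (X.filter fun z => cb (K ^ 2) z = j) (Finset.filter_subset _ _)
    fun z hz => (Finset.mem_filter.1 hz).2
  refine le_trans (le_of_eq (Finset.sum_congr rfl fun z hz => ?_)) h1
  rw [(Finset.mem_filter.1 hz).2]

theorem qpow {P : ℝ} (hP : 2 ≤ P) {c q : ℝ} (hc : 0 ≤ c) (hq0 : 0 < q) (hq1 : q ≤ 1) :
    (c * q) ^ P ≤ c ^ P * q ^ 2 := by
  rw [Real.mul_rpow hc hq0.le]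
  refine mul_le_mul_of_nonneg_left ?_ (by positivity)
  rw [← Real.rpow_natCast q 2]
  exact Real.rpow_le_rpow_of_exponent_ge hq0 hq1 (by exact_mod_cast hP)

theorem kpow (m : ℕ) {K : ℝ} (hK : 1 ≤ K) :
    K ^ (2 * m + 6) * ((K ^ (3 * m + 8))⁻¹) ^ 2 ≤ (K ^ 4)⁻¹ := by
  have hK0 : 0 < K := by linarith
  have e1 : K ^ (2 * m + 6) * ((K ^ (3 * m + 8))⁻¹) ^ 2 = (K ^ (4 * m + 10))⁻¹ := by
    rw [inv_pow, ← pow_mul, ← div_eq_mul_inv, div_eq_iff (by positivity), ← div_eq_inv_mul,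
      eq_div_iff (by positivity), ← pow_add]
    congr 1
    ring
  rw [e1]
  exact inv_anti₀ (by positivity) (pow_le_pow_right₀ hK (by omega))

end PTB

open PTB in
theorem pf_PTB (hDCL : T_DCL) (hSPW : T_SPW) (hSXI : T_SXI) (hSXB : T_SXB) (hPUS : T_PUS)
    (hCBN : T_CBN) (hCPS : T_CPS) (hSCH : T_SCH) (hWT1 : T_WT1) (hWT3 : T_WT3) : T_PTB := by
  classical
  intro m N P ε β hm hN hP hmP hε hβ
  obtain ⟨C₇, hC₇⟩ := hSPW m N 10 P 1 (by linarith) zero_le_one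
  obtain ⟨C₈, hC₈, hD⟩ := hDCL m N P ε β hm hN hP hmP hε hβ
  obtain ⟨C₆, hC₆⟩ := hSXI m P (by linarith)
  obtain ⟨C₅, hC₅⟩ := hSXB m P (by linarith)
  obtain ⟨-, -, C₀, hC₀, hcard, -, -⟩ := hPUS m
  obtain ⟨C₄, hC₄, -, -, -, -⟩ := hWT3 m N hN
  obtain ⟨C₃, -, -, -, hC₃, -⟩ := hWT3 m (m + 3) le_rfl
  set w : ℝ := ((m : ℝ) + 2) ^ N with hw
  have hw0 : 0 < w := by positivity
  set a1 : ℝ := 2 ^ (P - 1) * (w * (C₇ * (C₈ * (C₄ * C₆)))) with ha1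
  set a2 : ℝ := 2 ^ (P - 1) * (((m : ℝ) + 2) ^ (m + 3) * C₃ * (C₀ * w) ^ P * C₅) with ha2
  have ha10 : 0 ≤ a1 := by positivity
  have ha20 : 0 ≤ a2 := by positivity
  refine ⟨a1 + a2 + 1, by positivity, ?_⟩
  intro K κ R Λ G X hK hKR hκ0 hκ hΛ hG hsupp hX hSg
  have hK0 : 0 < K := by linarith
  have hR : 1 ≤ R := (one_le_pow₀ hK).trans hKR
  have hs : ∀ ζ, G ζ ≠ 0 → 1 / 4 ≤ ζ.1 := fun ζ h => (rg_bounds hκ0 hκ hR (hsupp ζ h)).1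
  have hs2 : ∀ ζ, G ζ ≠ 0 → ‖ζ.1⁻¹ • ζ.2.1‖ ≤ 3 / 2 :=
    fun ζ h => (rg_bounds hκ0 hκ hR (hsupp ζ h)).2.1
  have hs3 : ∀ ζ, G ζ ≠ 0 → ‖ζ‖ ≤ 10 := fun ζ h => (rg_bounds hκ0 hκ hR (hsupp ζ h)).2.2
  set J := X.image (cb (K ^ 2)) with hJ
  have hK1 : K⁻¹ ≤ 1 := inv_le_one_of_one_le₀ hK
  have hcK := hcard K⁻¹ (by positivity) hK1
  -- separated subsets
  have hsub : ∀ Y ⊆ X, Sep Y := fun Y hY z hz z' hz' hne => hX z (hY hz) z' (hY hz') hne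
  -- first sum
  have hA : ∑ z ∈ X, ‖∑ k ∈ Sg β N K G (cb (K ^ 2) z), uk β K G k z‖ₑ ^ P ≤
      ENNReal.ofReal (w * (C₇ * (C₈ * (C₄ * C₆))) * K ^ ε * Λ ^ (P / 2 - 1)) *
        ∑ k ∈ Ks m K⁻¹, SX P (uk β K G k) := by
    have h1 := group K X (fun j z => ‖∑ k ∈ Sg β N K G j, uk β K G k z‖ₑ ^ P)
      (fun j => ENNReal.ofReal w * (C₇ * (ENNReal.ofReal (C₈ * K ^ ε * Λ ^ (P / 2 - 1)) *
        ∑ k ∈ Ks m K⁻¹, ∫⁻ z, ‖uk β K G k z‖ₑ ^ P *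
          ENNReal.ofReal (wt N (K⁻¹ ^ 2 • z - zc j))))) (by
        intro j hj Y hY hYj
        refine (cellA C₇ hC₇ hWT1 hCPS hCBN hβ hK hG hs hs3 (Sg β N K G j) j Y (hsub Y hY)
          hYj).trans ?_
        refine mul_le_mul_right (mul_le_mul_right ?_ _) _
        refine (hD K κ R G (Sg β N K G j) j hK hKR hκ0 hκ hG hsupp
          (Finset.filter_subset _ _)).trans ?_
        refine mul_le_mul' (ENNReal.ofReal_le_ofReal ?_)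
          (Finset.sum_le_sum_of_subset (Finset.filter_subset _ _))
        obtain ⟨z, hz, hzj⟩ := Finset.mem_image.1 hj
        have h2 := hSg z hz
        rw [hzj] at h2
        refine mul_le_mul_of_nonneg_left ?_ (by positivity)
        exact Real.rpow_le_rpow (Nat.cast_nonneg _) h2 (by linarith))
    refine h1.trans ?_
    rw [← hJ, ← Finset.mul_sum, ← Finset.mul_sum, ← Finset.mul_sum, Finset.sum_comm]
    have h3 : ∀ k ∈ Ks m K⁻¹, ∑ j ∈ J, ∫⁻ z, ‖uk β K G k z‖ₑ ^ P *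
        ENNReal.ofReal (wt N (K⁻¹ ^ 2 • z - zc j)) ≤ C₄ * (C₆ * SX P (uk β K G k)) := by
      intro k _
      have hc : Continuous (uk β K G k) := (hSCH m _ (tc_k hCPS hβ hK hG hs k)).1
      refine (sumcells C₄ hC₄ hWT1 K _ (hc.enorm.measurable.pow_const P) J).trans ?_
      exact mul_le_mul_right (hC₆ _) _
    refine (mul_le_mul_right (mul_le_mul_right (mul_le_mul_right
      (Finset.sum_le_sum h3) _) _) _).trans (le_of_eq ?_)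
    rw [← Finset.mul_sum, ← Finset.mul_sum]
    have e0 : ENNReal.ofReal (w * (C₇ * (C₈ * (C₄ * C₆))) * K ^ ε * Λ ^ (P / 2 - 1)) =
        ENNReal.ofReal w * (C₇ * (ENNReal.ofReal (C₈ * K ^ ε * Λ ^ (P / 2 - 1)) *
          ((C₄ : ℝ≥0∞) * C₆))) := by
      rw [← ENNReal.ofReal_coe_nnreal (p := C₇), ← ENNReal.ofReal_coe_nnreal (p := C₄),
        ← ENNReal.ofReal_coe_nnreal (p := C₆), ← ENNReal.ofReal_mul (by positivity),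
        ← ENNReal.ofReal_mul (by positivity), ← ENNReal.ofReal_mul (by positivity),
        ← ENNReal.ofReal_mul (by positivity)]
      congr 1
      ring
    rw [e0]
    ring
  -- second sum
  have hB : ∑ z ∈ X, ‖∑ k ∈ Ks m K⁻¹ \ Sg β N K G (cb (K ^ 2) z), uk β K G k z‖ₑ ^ P ≤
      ENNReal.ofReal ((((m : ℝ) + 2) ^ (m + 3) * C₃ * (C₀ * w) ^ P * C₅) * (K ^ 4)⁻¹) *
        SX P (TF G) := by
    set c : ℝ := C₀ * w * (K ^ (3 * m + 8))⁻¹ with hc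
    have h1 := group K X (fun j z => ‖∑ k ∈ Ks m K⁻¹ \ Sg β N K G j, uk β K G k z‖ₑ ^ P)
      (fun j => ENNReal.ofReal (((m : ℝ) + 2) ^ (m + 3) * K ^ (2 * m + 6)) * C₃ *
        (ENNReal.ofReal (c ^ P) * Mj K (TF G) j ^ P)) (by
        intro j hj Y hY hYj
        have h2 : ∀ z ∈ Y, ‖∑ k ∈ Ks m K⁻¹ \ Sg β N K G j, uk β K G k z‖ₑ ^ P ≤
            ENNReal.ofReal (c ^ P) * Mj K (TF G) j ^ P := by
          intro z hz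
          have h3 := cell hCBN hK z
          rw [hYj z hz] at h3
          have h4 := nonsig (β := β) (N := N) (G := G) hK hC₀ hcK h3
          refine (ENNReal.rpow_le_rpow h4 (by linarith)).trans (le_of_eq ?_)
          rw [ENNReal.mul_rpow_of_nonneg _ _ (by linarith),
            ENNReal.ofReal_rpow_of_nonneg (by positivity) (by linarith)]
        refine (Finset.sum_le_sum h2).trans ?_
        rw [Finset.sum_const, nsmul_eq_mul]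
        exact mul_le_mul_left (card_cell C₃ hC₃ hCBN hK j Y (hsub Y hY) hYj) _)
    refine h1.trans ?_
    rw [← hJ, ← Finset.mul_sum, ← Finset.mul_sum]
    have h5 : ∑ j ∈ J, Mj K (TF G) j ^ P ≤ C₅ * SX P (TF G) :=
      (ENNReal.sum_le_tsum J).trans (hC₅ K (TF G) hK)
    refine (mul_le_mul_right (mul_le_mul_right h5 _) _).trans ?_
    rw [show ENNReal.ofReal (((m : ℝ) + 2) ^ (m + 3) * K ^ (2 * m + 6)) * (C₃ : ℝ≥0∞) *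
      (ENNReal.ofReal (c ^ P) * (C₅ * SX P (TF G))) =
      (ENNReal.ofReal (((m : ℝ) + 2) ^ (m + 3) * K ^ (2 * m + 6)) * (C₃ : ℝ≥0∞) *
      ENNReal.ofReal (c ^ P) * C₅) * SX P (TF G) by ring]
    refine mul_le_mul_left ?_ _
    rw [← ENNReal.ofReal_coe_nnreal (p := C₃), ← ENNReal.ofReal_coe_nnreal (p := C₅),
      ← ENNReal.ofReal_mul (by positivity), ← ENNReal.ofReal_mul (by positivity),
      ← ENNReal.ofReal_mul (by positivity)]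
    refine ENNReal.ofReal_le_ofReal ?_
    have h6 : c ^ P ≤ (C₀ * w) ^ P * ((K ^ (3 * m + 8))⁻¹) ^ 2 :=
      qpow hP (by positivity) (by positivity) (inv_le_one_of_one_le₀ (one_le_pow₀ hK))
    have h7 := kpow m hK
    calc ((m : ℝ) + 2) ^ (m + 3) * K ^ (2 * m + 6) * C₃ * c ^ P * C₅
        ≤ ((m : ℝ) + 2) ^ (m + 3) * K ^ (2 * m + 6) * C₃ *
          ((C₀ * w) ^ P * ((K ^ (3 * m + 8))⁻¹) ^ 2) * C₅ := by gcongr
      _ = (((m : ℝ) + 2) ^ (m + 3) * C₃ * (C₀ * w) ^ P * C₅) *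
          (K ^ (2 * m + 6) * ((K ^ (3 * m + 8))⁻¹) ^ 2) := by ring
      _ ≤ _ := mul_le_mul_of_nonneg_left h7 (by positivity)
  -- the sum
  have hsum : ∀ z ∈ X, ‖TF G z‖ₑ ^ P ≤ ENNReal.ofReal (2 ^ (P - 1)) *
      (‖∑ k ∈ Sg β N K G (cb (K ^ 2) z), uk β K G k z‖ₑ ^ P +
        ‖∑ k ∈ Ks m K⁻¹ \ Sg β N K G (cb (K ^ 2) z), uk β K G k z‖ₑ ^ P) := by
    intro z _
    have h1 : TF G z = ∑ k ∈ Sg β N K G (cb (K ^ 2) z), uk β K G k z +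
        ∑ k ∈ Ks m K⁻¹ \ Sg β N K G (cb (K ^ 2) z), uk β K G k z := by
      rw [TF_all hPUS hCPS hβ hK hG hs hs2 z, add_comm]
      exact (Finset.sum_sdiff (Finset.filter_subset _ _)).symm
    rw [h1]
    refine (ENNReal.rpow_le_rpow (enorm_add_le _ _) (by linarith)).trans ?_
    refine (ENNReal.rpow_add_le_mul_rpow_add_rpow _ _ (by linarith)).trans (le_of_eq ?_)
    congr 1
    rw [← ENNReal.ofReal_rpow_of_pos (by norm_num), ENNReal.ofReal_ofNat]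
  calc ∑ z ∈ X, ‖TF G z‖ₑ ^ P
      ≤ ∑ z ∈ X, ENNReal.ofReal (2 ^ (P - 1)) *
      (‖∑ k ∈ Sg β N K G (cb (K ^ 2) z), uk β K G k z‖ₑ ^ P +
        ‖∑ k ∈ Ks m K⁻¹ \ Sg β N K G (cb (K ^ 2) z), uk β K G k z‖ₑ ^ P) :=
        Finset.sum_le_sum hsum
    _ = ENNReal.ofReal (2 ^ (P - 1)) *
      (∑ z ∈ X, ‖∑ k ∈ Sg β N K G (cb (K ^ 2) z), uk β K G k z‖ₑ ^ P +
        ∑ z ∈ X, ‖∑ k ∈ Ks m K⁻¹ \ Sg β N K G (cb (K ^ 2) z), uk β K G k z‖ₑ ^ P) := by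
        rw [← Finset.mul_sum, Finset.sum_add_distrib]
    _ ≤ ENNReal.ofReal (2 ^ (P - 1)) *
      (ENNReal.ofReal (w * (C₇ * (C₈ * (C₄ * C₆))) * K ^ ε * Λ ^ (P / 2 - 1)) *
        ∑ k ∈ Ks m K⁻¹, SX P (uk β K G k) +
      ENNReal.ofReal ((((m : ℝ) + 2) ^ (m + 3) * C₃ * (C₀ * w) ^ P * C₅) * (K ^ 4)⁻¹) *
        SX P (TF G)) := mul_le_mul_right (add_le_add hA hB) _
    _ ≤ _ := by
        have hmul : ∀ (A B : ℝ) (T : ℝ≥0∞), 0 ≤ A → ENNReal.ofReal A * (ENNReal.ofReal B * T) =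
            ENNReal.ofReal (A * B) * T := fun A B T hA => by
          rw [← mul_assoc, ← ENNReal.ofReal_mul hA]
        rw [mul_add, hmul _ _ _ (by positivity), hmul _ _ _ (by positivity)]
        refine add_le_add (mul_le_mul_left (ENNReal.ofReal_le_ofReal ?_) _)
          (mul_le_mul_left (ENNReal.ofReal_le_ofReal ?_) _)
        · have e1 : 2 ^ (P - 1) * (w * (C₇ * (C₈ * (C₄ * C₆))) * K ^ ε * Λ ^ (P / 2 - 1)) =
            a1 * (K ^ ε * Λ ^ (P / 2 - 1)) := by rw [ha1]; ring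
          rw [e1, mul_assoc (a1 + a2 + 1)]
          exact mul_le_mul_of_nonneg_right (by linarith) (by positivity)
        · have e2 : 2 ^ (P - 1) * ((((m : ℝ) + 2) ^ (m + 3) * C₃ * (C₀ * w) ^ P * C₅) *
            (K ^ 4)⁻¹) = a2 * (K ^ 4)⁻¹ := by rw [ha2]; ring
          rw [e2]
          exact mul_le_mul_of_nonneg_right (by linarith) (by positivity)

end Pool.Agent.H59.G4
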